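import Mathlib

/-! Independence of a finite family of vectors modulo a subspace. -/

namespace Pool.Agent.Lib.MP_f51a11_co.Qp

open Finset

variable {F V α : Type} [Field F] [AddCommGroup V] [Module F V]

/-- The vectors `v i`, `i ∈ I`, are independent modulo `U`. -/
def Ind (U : Submodule F V) (v : α → V) (I : Finset α) : Prop :=
  ∀ c : α → F, ∑ i ∈ I, c i • v i ∈ U → ∀ i ∈ I, c i = 0

/-- The span of `U` and the vectors `v i`, `i ∈ B`. -/
def sp (U : Submodule F V) (v : α → V) (B : Finset α) : Submodule F V :=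
  U ⊔ Submodule.span F (v '' B)

variable {U : Submodule F V} {v : α → V} {B G I J : Finset α} {b e : α} {y : V}

theorem mem_sp : y ∈ sp U v B ↔ ∃ c : α → F, y - ∑ i ∈ B, c i • v i ∈ U := by
  rw [sp, Submodule.mem_sup]
  constructor
  · rintro ⟨u, hu, z, hz, rfl⟩
    obtain ⟨c, rfl⟩ := (Submodule.mem_span_image_finset_iff_exists_fun' F).1 hz
    exact ⟨c, by simpa using hu⟩
  · rintro ⟨c, hc⟩
    exact ⟨_, hc, _, (Submodule.mem_span_image_finset_iff_exists_fun' F).2 ⟨c, rfl⟩, by simp⟩

theorem le_sp : U ≤ sp U v B := le_sup_left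

theorem self_mem_sp (h : b ∈ B) : v b ∈ sp U v B :=
  Submodule.mem_sup_right (Submodule.subset_span ⟨b, h, rfl⟩)

theorem sum_mem_sp (c : α → F) : ∑ i ∈ B, c i • v i ∈ sp U v B :=
  Submodule.sum_mem _ fun _ h => Submodule.smul_mem _ _ (self_mem_sp h)

variable [DecidableEq α]

theorem sum_ite_sub (h : J ⊆ I) (c : α → F) :
    ∑ i ∈ I, (if i ∈ J then c i else 0) • v i = ∑ i ∈ J, c i • v i := by
  simp only [ite_smul, zero_smul, sum_ite_mem, inter_eq_right.2 h]

omit [DecidableEq α] in
theorem Ind.mono (h : Ind U v I) (hJ : J ⊆ I) : Ind U v J := by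
  classical
  intro c hc i hi
  simpa [hi] using h _ ((sum_ite_sub (v := v) hJ c).symm ▸ hc :) i (hJ hi)

omit [DecidableEq α] in
theorem Ind.notMem (h : Ind U v I) (hb : b ∈ I) : v b ∉ U := fun k =>
  one_ne_zero (h.mono (singleton_subset_iff.2 hb) (fun _ => (1 : F)) (by simpa using k) b
    (mem_singleton_self b))

theorem ind_sp (hB : Ind U v B) : Ind (sp U v B) v I ↔ Disjoint I B ∧ Ind U v (I ∪ B) := by
  constructor
  · intro h
    have hd : Disjoint I B := disjoint_left.2 fun i h1 h2 => h.notMem h1 (self_mem_sp h2)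
    refine ⟨hd, fun c hc => ?_⟩
    rw [sum_union hd] at hc
    have h1 := h c (by simpa using sub_mem (le_sp (v := v) (B := B) hc) (sum_mem_sp c))
    rw [sum_eq_zero fun i hi => by rw [h1 i hi, zero_smul], zero_add] at hc
    exact fun i hi => (mem_union.1 hi).elim (h1 i) (hB c hc i)
  · rintro ⟨hd, h⟩ c hc i hi
    obtain ⟨a, ha⟩ := mem_sp.1 hc
    have h1 := h (fun j => if j ∈ I then c j else - a j) (by
      rw [sum_union hd, sum_congr rfl fun j hj => by rw [if_pos hj],
        sum_congr (s₁ := B) rfl fun j hj => by rw [if_neg (disjoint_right.1 hd hj), neg_smul],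
        sum_neg_distrib, ← sub_eq_add_neg]
      exact ha) i (mem_union_left _ hi)
    simpa [hi] using h1

omit [DecidableEq α] in
theorem ind_single : Ind U v {e} ↔ v e ∉ U :=
  ⟨fun h => h.notMem (mem_singleton_self e), fun h c hc i hi => by
    obtain rfl := mem_singleton.1 hi
    by_contra k
    exact h ((U.smul_mem_iff k).1 (by simpa using hc))⟩

theorem ind_insert (hI : Ind U v I) : v e ∉ sp U v I ↔ e ∉ I ∧ Ind U v (insert e I) := by
  rw [← ind_single, ind_sp hI, disjoint_singleton_left, insert_eq]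

theorem ind_comp {κ : Type} (g : κ → α) (Z : Finset κ) :
    Ind U (v ∘ g) Z ↔ Set.InjOn g Z ∧ Ind U v (Z.image g) := by
  classical
  constructor
  · intro h
    have hi : Set.InjOn g Z := fun k hk l hl e => by_contra fun ne => by
      have h1 := h.mono (J := {k, l}) (insert_subset hk (singleton_subset_iff.2 hl))
        (fun j => if j = k then 1 else -1) (by simp [sum_pair ne, e, Ne.symm ne]) k (by simp)
      simp at h1
    refine ⟨hi, fun c hc i hi' => ?_⟩
    obtain ⟨k, hk, rfl⟩ := mem_image.1 hi'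
    rw [sum_image hi] at hc
    exact h (c ∘ g) hc k hk
  · rintro ⟨hi, h⟩ c hc k hk
    have h1 : ∀ l ∈ Z, Function.extend (fun j : Z => g j) (fun j => c j) 0 (g l) = c l :=
      fun l hl => (Set.injOn_iff_injective.1 hi).extend_apply (fun j => c j) 0 ⟨l, hl⟩
    rw [← h1 k hk]
    refine h _ ?_ _ (mem_image_of_mem g hk)
    rw [sum_image hi, sum_congr rfl fun l hl => by rw [h1 l hl]]
    exact hc

/-- The exchange of `b` for `e`. -/
theorem exch (hG : Ind U v G) (hb : b ∈ G) {c : α → F} (he : v e - ∑ i ∈ G, c i • v i ∈ U)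
    (hc : c b ≠ 0) : e ∉ G.erase b ∧ Ind U v (insert e (G.erase b)) ∧ ∀ a : α → F,
      ∑ i ∈ G, a i • v i - ∑ i ∈ insert e (G.erase b),
        (if i = e then a b / c b else a i - a b / c b * c i) • v i ∈ U := by
  have h1 : v e ∉ sp U v (G.erase b) := fun k => by
    obtain ⟨a, ha⟩ := mem_sp.1 k
    have h2 := hG (fun i => c i - if i ∈ G.erase b then a i else 0) (by
      simp only [sub_smul, sum_sub_distrib, sum_ite_sub (erase_subset b G)]
      simpa using sub_mem ha he) b hb
    simp [hc] at h2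
  obtain ⟨h2, h3⟩ := (ind_insert (hG.mono (erase_subset b G))).1 h1
  refine ⟨h2, h3, fun a => ?_⟩
  rw [sum_insert h2, if_pos rfl, sum_congr (s₁ := G.erase b) rfl fun i hi => by
    rw [if_neg fun k : i = e => h2 (k ▸ hi)], sum_erase _ (by rw [div_mul_cancel₀ _ hc]; simp)]
  simp only [sub_smul, mul_smul, sum_sub_distrib, ← smul_sum]
  convert neg_mem (U.smul_mem (a b / c b) he) using 1
  rw [smul_sub]
  abel

variable {K W : Type} [Field K] [AddCommGroup W] [Module K W]

/-- Two families with the same independent subsets of `E`. -/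
def Same (U : Submodule F V) (U' : Submodule K W) (v : α → V) (w : α → W) (E : Finset α) : Prop :=
  ∀ I ⊆ E, Ind U v I ↔ Ind U' w I

variable {U' : Submodule K W} {w : α → W} {E : Finset α}

theorem Same.comp (h : Same U U' v w E) {κ : Type} (g : κ → α) (Z : Finset κ)
    (hg : ∀ k ∈ Z, g k ∈ E) : Ind U (v ∘ g) Z ↔ Ind U' (w ∘ g) Z := by
  rw [ind_comp, ind_comp, h _ (image_subset_iff.2 hg)]

theorem Same.con (h : Same U U' v w E) (hB : B ⊆ E) (hi : Ind U v B) :
    Same (sp U v B) (sp U' w B) v w E := fun I hI => by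
  rw [ind_sp hi, ind_sp ((h B hB).1 hi), h _ (union_subset hI hB)]

omit [DecidableEq α] in
theorem Same.mono (h : Same U U' v w E) (hB : B ⊆ E) : Same U U' v w B :=
  fun I hI => h I (hI.trans hB)

end Pool.Agent.Lib.MP_f51a11_co.Qp
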