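import Pool.Agent.Lib.MP_f51a11_co.Qp.Bas

/-! A family without long circuits has a cocircuit of small rank. -/

namespace Pool.Agent.Lib.MP_f51a11_co.Qp

open Finset

variable {F V α : Type} [Field F] [AddCommGroup V] [Module F V] [DecidableEq α]

open Classical in
/-- Every vector of `E` has at most `s` nonzero coordinates in any independent subset of `E`. -/
def SC (s : ℕ) (U : Submodule F V) (v : α → V) (E : Finset α) : Prop :=
  ∀ I ⊆ E, Ind U v I → ∀ e ∈ E, ∀ c : α → F, v e - ∑ i ∈ I, c i • v i ∈ U →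
    #{i ∈ I | c i ≠ 0} ≤ s

/-- Some vector of `E` has only nonzero coordinates in `J`. -/
def Full (U : Submodule F V) (v : α → V) (E J : Finset α) : Prop :=
  ∃ e ∈ E, ∃ μ : α → F, (∀ g ∈ J, μ g ≠ 0) ∧ v e - ∑ i ∈ J, μ i • v i ∈ U

variable {U : Submodule F V} {v : α → V} {E G J J' : Finset α} {s : ℕ}

open Classical in
theorem rebase (hE : G ⊆ E) (hG : Ind U v G) (hJ : J ⊆ G) (hf : Full U v E J) (c : α → F)
    (hc : ∃ g ∈ J, c g ≠ 0) : ∃ (G' : Finset α) (c' : α → F), G' ⊆ E ∧ Ind U v G' ∧ G \ J ⊆ G' ∧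
      (∀ g ∈ G \ J, c' g = c g) ∧ ∑ i ∈ G, c i • v i - ∑ i ∈ G', c' i • v i ∈ U ∧
        #J + 1 ≤ 2 * #{i ∈ G' \ (G \ J) | c' i ≠ 0} := by
  obtain ⟨e, he, μ, h1, h2⟩ := hf
  obtain ⟨g, hg, hc⟩ := hc
  by_cases h : #J + 1 ≤ 2 * #{i ∈ J | c i ≠ 0}
  · exact ⟨G, c, hE, hG, sdiff_subset, fun _ _ => rfl, by simp, by
      rwa [Finset.sdiff_sdiff_eq_self hJ]⟩
  have h0 : 0 < #{i ∈ J | c i ≠ 0} := card_pos.2 ⟨g, mem_filter.2 ⟨hg, hc⟩⟩
  rw [← sum_ite_sub hJ] at h2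
  obtain ⟨k1, k2, k3⟩ := exch hG (hJ hg) h2 (by simpa [hg] using h1 g hg)
  have hs : G \ J ⊆ G.erase g := fun i hi =>
    mem_erase.2 ⟨fun k => (mem_sdiff.1 hi).2 (k ▸ hg), (mem_sdiff.1 hi).1⟩
  refine ⟨_, _, insert_subset he ((erase_subset _ _).trans hE), k2,
    hs.trans (subset_insert _ _), fun i hi => ?_, k3 c, ?_⟩
  · rw [if_neg fun k : i = e => k1 (k ▸ hs hi), if_neg (mem_sdiff.1 hi).2, mul_zero, sub_zero]
  have ht : c g / μ g ≠ 0 := div_ne_zero hc (h1 g hg)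
  have k4 : ∀ i ∈ J, c i = 0 → i ∈ G.erase g := fun i hi k =>
    mem_erase.2 ⟨fun l => hc (l ▸ k), hJ hi⟩
  have k5 : insert e {i ∈ J | ¬ c i ≠ 0} ⊆ {i ∈ insert e (G.erase g) \ (G \ J) |
      (if i = e then c g / (if g ∈ J then μ g else 0) else
        c i - c g / (if g ∈ J then μ g else 0) * if i ∈ J then μ i else 0) ≠ 0} := by
    refine insert_subset (mem_filter.2 ⟨mem_sdiff.2 ⟨mem_insert_self _ _, fun k => k1 (hs k)⟩,
      by simpa [hg] using ⟨hc, h1 g hg⟩⟩) fun i hi => ?_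
    obtain ⟨a1, a2⟩ := mem_filter.1 hi
    have a3 := k4 i a1 (not_not.1 a2)
    refine mem_filter.2 ⟨mem_sdiff.2 ⟨mem_insert_of_mem a3, fun k => (mem_sdiff.1 k).2 a1⟩, ?_⟩
    rw [if_neg fun k : i = e => k1 (k ▸ a3), if_pos hg, if_pos a1, not_not.1 a2, zero_sub]
    exact neg_ne_zero.2 (mul_ne_zero ht (h1 i a1))
  have k6 := card_le_card k5
  rw [card_insert_of_notMem fun k =>
    k1 (k4 e (mem_filter.1 k).1 (not_not.1 (mem_filter.1 k).2))] at k6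
  have k7 := card_filter_add_card_filter_not (s := J) fun i => c i ≠ 0
  omega

theorem two_blocks (h : SC s U v E) (hE : G ⊆ E) (hG : Ind U v G) (hJ : J ⊆ G) (hJ' : J' ⊆ G)
    (hd : Disjoint J J') (hf : Full U v E J) (hf' : Full U v E J') (hs : #J = s) (hs' : #J' = s)
    {e : α} (he : e ∈ E) {c : α → F} (hc : v e - ∑ i ∈ G, c i • v i ∈ U)
    (h1 : ∃ g ∈ J, c g ≠ 0) (h2 : ∃ g ∈ J', c g ≠ 0) : False := by
  classical
  obtain ⟨G₁, c₁, a1, a2, a3, a4, a5, a6⟩ := rebase hE hG hJ hf c h1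
  have k : J' ⊆ G \ J := subset_sdiff.2 ⟨hJ', hd.symm⟩
  obtain ⟨G₂, c₂, b1, b2, b3, b4, b5, b6⟩ := rebase a1 a2 (k.trans a3) hf' c₁
    (h2.imp fun g (hg : g ∈ J' ∧ _) => ⟨hg.1, (a4 g (k hg.1)).symm ▸ hg.2⟩)
  have k1 := h G₂ b1 b2 e he c₂ (by simpa using add_mem (add_mem hc a5) b5)
  have k2 : G₁ \ (G \ J) ⊆ G₁ \ J' := sdiff_subset_sdiff Subset.rfl k
  have k3 : {i ∈ G₁ \ (G \ J) | c₁ i ≠ 0} ∪ {i ∈ G₂ \ (G₁ \ J') | c₂ i ≠ 0} ⊆
      {i ∈ G₂ | c₂ i ≠ 0} := by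
    refine union_subset (fun i hi => ?_) (filter_subset_filter _ sdiff_subset)
    obtain ⟨l1, l2⟩ := mem_filter.1 hi
    exact mem_filter.2 ⟨b3 (k2 l1), (b4 i (k2 l1)).symm ▸ l2⟩
  have k4 := card_le_card k3
  rw [card_union_of_disjoint (disjoint_left.2 fun i l1 l2 =>
    (mem_sdiff.1 (mem_filter.1 l2).1).2 (k2 (mem_filter.1 l1).1))] at k4
  omega

theorem sum_ite_union {I B : Finset α} (hd : Disjoint I B) (c a : α → F) :
    ∑ i ∈ I ∪ B, (if i ∈ I then c i else a i) • v i = ∑ i ∈ I, c i • v i + ∑ i ∈ B, a i • v i := by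
  rw [sum_union hd, sum_congr rfl fun j hj => by rw [if_pos hj],
    sum_congr (s₁ := B) rfl fun j hj => by rw [if_neg (disjoint_right.1 hd hj)]]

omit [DecidableEq α] in
theorem sp_of_zero {y : V} (hJ : J ⊆ G) {c : α → F} (hc : y - ∑ i ∈ G, c i • v i ∈ U)
    (h : ∀ i ∈ G, i ∉ J → c i = 0) : y ∈ sp U v J :=
  mem_sp.2 ⟨c, by rwa [sum_subset hJ fun i h1 h2 => by rw [h i h1 h2, zero_smul]]⟩

omit [DecidableEq α] in
theorem coef_ne {φ : V →ₗ[F] F} {b : α} {y : V} (hU : ∀ u ∈ U, φ u = 0)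
    (hφ : ∀ i ∈ G, i ≠ b → φ (v i) = 0) {c : α → F} (hc : y - ∑ i ∈ G, c i • v i ∈ U)
    (hy : φ y ≠ 0) : c b ≠ 0 := fun k => hy (by
  have h := hU _ hc
  rwa [map_sub, map_sum, sum_eq_zero fun i hi => by
    rcases eq_or_ne i b with rfl | l
    · rw [k, zero_smul, map_zero]
    · rw [map_smul, hφ i hi l, smul_zero], sub_zero] at h)

theorem cocirc (s : ℕ) : ∀ U : Submodule F V, SC s U v E → (∃ e ∈ E, v e ∉ U) →
    ∃ (I : Finset α) (φ : V →ₗ[F] F) (b : α), I ⊆ E ∧ Ind U v I ∧ b ∈ I ∧ φ (v b) ≠ 0 ∧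
      (∀ u ∈ U, φ u = 0) ∧ (∀ i ∈ I, i ≠ b → φ (v i) = 0) ∧ 2 * #I ≤ s * (s + 1) ∧
        ∀ e ∈ E, φ (v e) ≠ 0 → v e ∈ sp U v I := by
  classical
  induction s with
  | zero =>
    rintro U h ⟨e, he, h1⟩
    simpa using h {e} (singleton_subset_iff.2 he) (ind_single.2 h1) e he (fun _ => 1) (by simp)
  | succ s ih =>
  rintro U h ⟨e₀, he₀, h0⟩
  obtain ⟨T, hT, hmax⟩ := exists_max_image {T ∈ E.powerset.powerset |
    (∀ J ∈ T, #J = s + 1 ∧ Full U v E J) ∧ (∀ J ∈ T, ∀ J' ∈ T, J ≠ J' → Disjoint J J') ∧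
      Ind U v (T.biUnion id)} card ⟨∅, by simp [Ind]⟩
  obtain ⟨t0, t1, t2, t3⟩ := mem_filter.1 hT
  obtain ⟨B, hB⟩ : ∃ B, T.biUnion id = B := ⟨_, rfl⟩
  have b1 : ∀ J ∈ T, J ⊆ B := fun J hJ => hB ▸ subset_biUnion_of_mem id hJ
  have b2 : ∀ g ∈ B, ∃ J ∈ T, g ∈ J := fun g hg => mem_biUnion.1 (hB ▸ hg :)
  have b3 : B ⊆ E := fun g hg => by
    obtain ⟨J, k1, k2⟩ := b2 g hg
    exact mem_powerset.1 (mem_powerset.1 t0 k1) k2
  rw [hB] at t3
  have two : ∀ {G}, G ⊆ E → Ind U v G → ∀ J ∈ T, ∀ J' ∈ T, J ≠ J' → J ⊆ G → J' ⊆ G → ∀ e ∈ E,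
      ∀ c : α → F, v e - ∑ i ∈ G, c i • v i ∈ U → (∃ g ∈ J, c g ≠ 0) → ∀ g ∈ J', c g = 0 :=
    fun k1 k2 J k3 J' k4 k5 k6 k7 e k8 c k9 l1 g l2 => by_contra fun l3 =>
      two_blocks h k1 k2 k6 k7 (t2 J k3 J' k4 k5) (t1 J k3).2 (t1 J' k4).2 (t1 J k3).1
        (t1 J' k4).1 k8 k9 l1 ⟨g, l2, l3⟩
  have rep : ∀ {I : Finset α}, Disjoint I B → ∀ {y}, y ∈ sp (sp U v B) v I →
      ∃ c : α → F, y - ∑ i ∈ I ∪ B, c i • v i ∈ U := fun {I} hd y hy => by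
    obtain ⟨c, k1⟩ := mem_sp.1 hy
    obtain ⟨a, k2⟩ := mem_sp.1 k1
    exact ⟨_, by rwa [sum_ite_union hd c a, ← sub_sub]⟩
  by_cases hA : ∃ e ∈ E, v e ∉ sp U v B
  · have hSC : SC s (sp U v B) v E := fun I k1 k2 e he c hc => by
      obtain ⟨I', hI'⟩ : ∃ I', I' = {i ∈ I | c i ≠ 0} := ⟨_, rfl⟩
      have l1 : I' ⊆ I := hI' ▸ filter_subset _ _
      have l2 : ∀ i ∈ I', c i ≠ 0 := fun i hi => (mem_filter.1 (hI' ▸ hi :)).2
      rw [← sum_subset l1 fun i h1 h2 => by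
        rw [not_not.1 fun k => h2 (hI' ▸ mem_filter.2 ⟨h1, k⟩), zero_smul]] at hc
      rw [← hI']
      by_contra l3
      obtain ⟨l4, l5⟩ := (ind_sp t3).1 (k2.mono l1)
      obtain ⟨a, k2⟩ := mem_sp.1 hc
      have l6 := h _ (union_subset (l1.trans k1) b3) l5 e he
        (fun i => if i ∈ I' then c i else a i) (by rwa [sum_ite_union l4 c a, ← sub_sub])
      have l7 : I' ∪ {i ∈ B | a i ≠ 0} ⊆ {i ∈ I' ∪ B | (if i ∈ I' then c i else a i) ≠ 0} :=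
        union_subset (fun i hi => mem_filter.2 ⟨mem_union_left _ hi, by simpa [hi] using l2 i hi⟩)
          fun i hi => mem_filter.2 ⟨mem_union_right _ (mem_filter.1 hi).1, by
            simpa [disjoint_right.1 l4 (mem_filter.1 hi).1] using (mem_filter.1 hi).2⟩
      have l8 := (card_le_card l7).trans l6
      rw [card_union_of_disjoint (l4.mono_right (filter_subset _ _))] at l8
      have l9 : ∀ i ∈ B, a i = 0 := fun i hi => by_contra fun k => by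
        have := card_pos.2 ⟨i, (mem_filter.2 ⟨hi, k⟩ : i ∈ {i ∈ B | a i ≠ 0})⟩
        omega
      rw [sum_eq_zero (s := B) fun i hi => by rw [l9 i hi, zero_smul], sub_zero] at k2
      have m1 : I' ∉ T := fun k => by
        obtain ⟨i, hi⟩ := card_pos.1 (show 0 < #I' by omega)
        exact disjoint_left.1 l4 hi (b1 _ k hi)
      have m2 := hmax (insert I' T) (mem_filter.2 ⟨mem_powerset.2 (insert_subset
        (mem_powerset.2 (l1.trans k1)) (mem_powerset.1 t0)), (forall_mem_insert _ _ _).2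
          ⟨⟨by omega, e, he, c, l2, k2⟩, t1⟩, fun J m3 J' m4 m5 => ?_, by
            rwa [biUnion_insert, hB]⟩)
      · rw [card_insert_of_notMem m1] at m2
        omega
      · rcases mem_insert.1 m3 with m6 | m6 <;> rcases mem_insert.1 m4 with m7 | m7
        exacts [(m5 (m6.trans m7.symm)).elim, m6 ▸ l4.mono_right (b1 _ m7),
          m7 ▸ (l4.mono_right (b1 _ m6)).symm, t2 J m6 J' m7 m5]
    obtain ⟨I, φ, b, a1, a2, a3, a4, a5, a6, a7, a8⟩ := ih _ hSC hA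
    obtain ⟨d1, d2⟩ := (ind_sp t3).1 a2
    have d3 : ∀ i ∈ I ∪ B, i ≠ b → φ (v i) = 0 := fun i hi k =>
      (mem_union.1 hi).elim (fun l => a6 i l k) fun l => a5 _ (self_mem_sp l)
    have d4 : ∀ u ∈ U, φ u = 0 := fun u hu => a5 u (le_sp hu)
    have d5 := union_subset a1 b3
    choose! c hc using fun e (he : e ∈ E ∧ φ (v e) ≠ 0) => rep d1 (a8 e he.1 he.2)
    have key : ∃ J ⊆ B, #J ≤ s + 1 ∧ ∀ e, e ∈ E ∧ φ (v e) ≠ 0 → ∀ g ∈ B, g ∉ J → c e g = 0 := by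
      by_cases k : ∃ e, (e ∈ E ∧ φ (v e) ≠ 0) ∧ ∃ g ∈ B, c e g ≠ 0
      swap
      · exact ⟨∅, by simp, by simp, fun e he g hg _ => by_contra fun l => k ⟨e, he, g, hg, l⟩⟩
      obtain ⟨e₁, k1, g₁, k2, k3⟩ := k
      obtain ⟨J, k4, k5⟩ := b2 g₁ k2
      refine ⟨J, b1 J k4, (t1 J k4).1.le, fun e he g hg l1 => ?_⟩
      obtain ⟨J', l2, l3⟩ := b2 g hg
      have l4 : J ≠ J' := fun l => l1 (l ▸ l3)
      have s1 := (b1 J k4).trans (subset_union_right (s₁ := I))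
      have s2 := (b1 J' l2).trans (subset_union_right (s₁ := I))
      by_cases l5 : ∃ g ∈ J, c e g ≠ 0
      · exact two d5 d2 J k4 J' l2 l4 s1 s2 e he.1 _ (hc e he) l5 g l3
      have l6 := two d5 d2 J k4 J' l2 l4 s1 s2 e₁ k1.1 _ (hc e₁ k1) ⟨g₁, k5, k3⟩ g l3
      have n1 := coef_ne d4 d3 (hc e₁ k1) k1.2
      have n2 := coef_ne d4 d3 (hc e he) he.2
      obtain ⟨m1, m2, m3⟩ := exch d2 (mem_union_left _ a3) (hc e₁ k1) n1
      have s3 : B ⊆ (I ∪ B).erase b := fun i hi =>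
        mem_erase.2 ⟨fun l => disjoint_left.1 d1 a3 (l ▸ hi), mem_union_right _ hi⟩
      have s4 : ∀ i ∈ B, i ≠ e₁ := fun i hi l => m1 (l ▸ s3 hi)
      have s5 := s3.trans (subset_insert e₁ _)
      have m4 := two (insert_subset k1.1 ((erase_subset _ _).trans d5)) m2 J k4 J' l2 l4
        ((b1 J k4).trans s5) ((b1 J' l2).trans s5) e he.1 _
        (by simpa only [sub_add_sub_cancel] using add_mem (hc e he) (m3 (c e))) ⟨g₁, k5, by
          rw [if_neg (s4 _ k2), not_not.1 fun l => l5 ⟨g₁, k5, l⟩, zero_sub]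
          exact neg_ne_zero.2 (mul_ne_zero (div_ne_zero n2 n1) k3)⟩ g l3
      simpa [s4 g hg, l6] using m4
    obtain ⟨J, j1, j2, j3⟩ := key
    have j4 : I ∪ J ⊆ I ∪ B := union_subset_union_right j1
    refine ⟨I ∪ J, φ, b, j4.trans d5, d2.mono j4, mem_union_left _ a3, a4, d4,
      fun i hi => d3 i (j4 hi), ?_, fun e he k => sp_of_zero j4 (hc e ⟨he, k⟩) fun i l1 l2 => ?_⟩
    · have := card_union_le I J
      nlinarith
    · exact j3 e ⟨he, k⟩ i ((mem_union.1 l1).resolve_left fun l => l2 (mem_union_left _ l))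
        fun l => l2 (mem_union_right _ l)
  · push Not at hA
    choose! c hc using fun e (he : e ∈ E) => mem_sp.1 (hA e he)
    obtain ⟨b, hb⟩ : B.Nonempty := nonempty_iff_ne_empty.2 fun k => h0 (by simpa [k] using hc e₀ he₀)
    obtain ⟨J, j1, j2⟩ := b2 b hb
    have k1 : v b ∉ sp U v (B.erase b) := (ind_insert (t3.mono (erase_subset _ _))).2
      ⟨notMem_erase _ _, by rwa [insert_erase hb]⟩
    obtain ⟨φ, k2, k3⟩ := Submodule.exists_le_ker_of_notMem k1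
    have k4 : ∀ i ∈ B, i ≠ b → φ (v i) = 0 := fun i l1 l2 =>
      k3 (self_mem_sp (mem_erase.2 ⟨l2, l1⟩))
    have k5 : ∀ u ∈ U, φ u = 0 := fun u hu => k3 (le_sp hu)
    refine ⟨J, φ, b, (b1 J j1).trans b3, t3.mono (b1 J j1), j2, k2, k5,
      fun i hi => k4 i (b1 J j1 hi), by rw [(t1 J j1).1]; nlinarith, fun e he k =>
        sp_of_zero (b1 J j1) (hc e he) fun i l1 l2 => ?_⟩
    obtain ⟨J', l3, l4⟩ := b2 i l1
    exact two b3 t3 J j1 J' l3 (fun l => l2 (l ▸ l4)) (b1 J j1) (b1 J' l3) e he _ (hc e he)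
      ⟨b, j2, coef_ne k5 k4 (hc e he) k⟩ i l4

end Pool.Agent.Lib.MP_f51a11_co.Qp
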