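import Pool.Agent.Lib.MP_f51a11_co.Qp.Bas

/-! A large family of small rank has a cube as a minor, and a cube has a determinant `p`. -/

namespace Pool.Agent.Lib.MP_f51a11_co.Qp

open Finset

variable {α F : Type} [DecidableEq α]

/-- The rows in `C` realise a full cube on the coordinates `T`. -/
def Shat (a : α → α → F) (C T : Finset α) : Prop :=
  ∃ x y : α → F, (∀ t ∈ T, x t ≠ y t) ∧ ∀ S ⊆ T, ∃ e ∈ C, ∀ t ∈ T, a e t = if t ∈ S then y t else x t

theorem natarajan [Fintype F] (a : α → α → F) (T : Finset α) : ∀ (d : ℕ) (C : Finset α),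
    (∀ e ∈ C, ∀ f ∈ C, (∀ t ∈ T, a e t = a f t) → e = f) → (∀ T' ⊆ T, Shat a C T' → #T' ≤ d) →
      #C ≤ (1 + #T * Fintype.card F ^ 2) ^ d := by
  classical
  induction T using Finset.induction_on with
  | empty => exact fun d C h _ => by simpa using card_le_one.2 fun e he f hf => h e he f hf (by simp)
  | insert t T ht ih =>
    intro d C h1 h2
    have : Nonempty α := ⟨t⟩
    obtain ⟨r, r1, r2, r3⟩ : ∃ r : α → α, (∀ e ∈ C, r e ∈ C) ∧ (∀ e ∈ C, ∀ s ∈ T, a (r e) s = a e s) ∧
        ∀ e f, (∀ s ∈ T, a e s = a f s) → r e = r f := by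
      choose! ρ h3 h4 using fun (z : T → F) (hz : ∃ e ∈ C, (fun s : T => a e s) = z) => hz
      exact ⟨fun e => ρ fun s => a e s, fun e he => h3 _ ⟨e, he, rfl⟩,
        fun e he s hs => congrFun (h4 _ ⟨e, he, rfl⟩) ⟨s, hs⟩,
        fun e f k => congrArg ρ (funext fun s => k s s.2)⟩
    have k0 : C.image r ⊆ C := image_subset_iff.2 r1
    have k1 := ih d (C.image r) (fun e he f hf k => by
      obtain ⟨e, l1, rfl⟩ := mem_image.1 he
      obtain ⟨f, l2, rfl⟩ := mem_image.1 hf
      exact r3 e f fun s hs => by rw [← r2 e l1 s hs, k s hs, r2 f l2 s hs])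
      fun T' l1 ⟨x, y, l2, l3⟩ => h2 T' (l1.trans (subset_insert _ _)) ⟨x, y, l2, fun S hS =>
        (l3 S hS).imp fun e he => ⟨k0 he.1, he.2⟩⟩
    have k2 : ∀ z : F × F, ∀ T' ⊆ T, Shat a {e ∈ C \ C.image r | (a (r e) t, a e t) = z} T' →
        #T' + 1 ≤ d := by
      rintro ⟨z₁, z₂⟩ T' l1 ⟨x, y, l2, l3⟩
      have l4 : t ∉ T' := fun k => ht (l1 k)
      have l5 : ∀ s ∈ T', s ≠ t := fun s hs k => l4 (k ▸ hs)
      rw [← card_insert_of_notMem l4]
      refine h2 _ (insert_subset_insert _ l1) ⟨Function.update x t z₁, Function.update y t z₂,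
        (forall_mem_insert _ _ _).2 ⟨?_, fun s hs => by simpa [l5 s hs] using l2 s hs⟩,
        fun S hS => ?_⟩
      · obtain ⟨e, he, -⟩ := l3 ∅ (empty_subset _)
        obtain ⟨m1, m2⟩ := mem_filter.1 he
        obtain ⟨m3, m4⟩ := mem_sdiff.1 m1
        obtain ⟨rfl, rfl⟩ := Prod.mk.inj m2
        simp only [Function.update_self]
        exact fun k => m4 (mem_image.2 ⟨e, m3, h1 _ (r1 e m3) e m3
          ((forall_mem_insert _ _ _).2 ⟨k, r2 e m3⟩)⟩)
      obtain ⟨e, he, m0⟩ := l3 (S.erase t) (subset_insert_iff.1 hS)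
      obtain ⟨m1, m2⟩ := mem_filter.1 he
      have m3 := (mem_sdiff.1 m1).1
      obtain ⟨rfl, rfl⟩ := Prod.mk.inj m2
      by_cases k : t ∈ S
      · exact ⟨e, m3, (forall_mem_insert _ _ _).2 ⟨by simp [k], fun s hs => by
          simpa [l5 s hs] using m0 s hs⟩⟩
      · exact ⟨r e, r1 e m3, (forall_mem_insert _ _ _).2 ⟨by simp [k], fun s hs => by
          simpa [l5 s hs, r2 e m3 s (l1 hs)] using m0 s hs⟩⟩
    have k3 := card_sdiff_add_card_eq_card k0
    have k4 := card_eq_sum_card_fiberwise (s := C \ C.image r) (t := univ)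
      (f := fun e => (a (r e) t, a e t)) fun _ _ => mem_univ _
    rw [card_insert_of_notMem ht]
    rcases d with _ | d
    · rw [sum_eq_zero fun z _ => card_eq_zero.2 (eq_empty_of_forall_notMem fun e he => by
        simpa using k2 z ∅ (empty_subset _) ⟨a e, a e, by simp, fun _ _ => ⟨e, he, by simp⟩⟩)] at k4
      simp only [pow_zero] at k1 ⊢
      omega
    have k5 := sum_le_card_nsmul univ _ _ fun (z : F × F) _ =>
      ih d {e ∈ C \ C.image r | (a (r e) t, a e t) = z} (fun e he f hf k => by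
        obtain ⟨m1, m2⟩ := mem_filter.1 he
        obtain ⟨m3, m4⟩ := mem_filter.1 hf
        exact h1 e (mem_sdiff.1 m1).1 f (mem_sdiff.1 m3).1 ((forall_mem_insert _ _ _).2
          ⟨(Prod.mk.inj (m2.trans m4.symm)).2, k⟩)) fun T' l1 l2 => by
            have := k2 z T' l1 l2
            omega
    rw [← k4, card_univ, Fintype.card_prod, smul_eq_mul, ← sq] at k5
    calc #C ≤ (1 + #T * Fintype.card F ^ 2) ^ d * (1 + (#T + 1) * Fintype.card F ^ 2) := by
          rw [pow_succ] at k1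
          nlinarith
      _ ≤ _ := by
          rw [pow_succ _ d]
          gcongr
          omega

theorem bits (L : ℕ) : ∀ n < 2 ^ L, ∃ S ⊆ range L, ∑ i ∈ S, 2 ^ i = n := by
  induction L with
  | zero => exact fun n h => ⟨∅, by simp, by simp; omega⟩
  | succ L ih =>
    intro n h
    rcases lt_or_ge n (2 ^ L) with k | k
    · exact (ih n k).imp fun S hS => ⟨hS.1.trans (range_mono L.le_succ), hS.2⟩
    obtain ⟨S, h1, h2⟩ := ih (n - 2 ^ L) (by omega)
    exact ⟨insert L S, range_add_one ▸ insert_subset_insert _ h1, by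
      rw [sum_insert fun l => by simpa using h1 l, h2]; omega⟩

/-- The matrix of zeros and ones that doubles and then adds up the binary digits. -/
def dbl {L : ℕ} (S : Finset ℕ) : Option (Fin L ⊕ Fin L) → Option (Fin L ⊕ Fin L) → Bool
  | none, some (.inl l) => l.1 ∈ S
  | some (.inl i), some (.inl l) => l = i
  | some (.inl i), some (.inr l) => l = i
  | some (.inr i), some (.inl l) => l < i
  | some (.inr i), some (.inr l) => l = i
  | some (.inr _), none => true
  | _, _ => false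

theorem dbl_iff {L n : ℕ} {S : Finset ℕ} (h1 : S ⊆ range L) (h2 : ∑ i ∈ S, 2 ^ i = n) (K : Type)
    [Field K] : (∀ z : Option (Fin L ⊕ Fin L) → K,
      (∀ t, ∑ j, (if dbl S t j then z j else 0) = 0) → ∀ j, z j = 0) ↔ (n : K) ≠ 0 := by
  have geo : ∀ i : Fin L, ∑ l : Fin L, (if l < i then (2 : K) ^ l.1 else 0) = 2 ^ i.1 - 1 :=
    fun i => by
      have k := Fin.sum_univ_eq_sum_range (fun l => if l ∈ range i.1 then (2 : K) ^ l else 0) L
      rw [sum_ite_mem, inter_eq_right.2 (range_mono i.2.le)] at k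
      have l := geom_sum_mul (2 : K) i.1
      simp only [mem_range, ← Fin.lt_def] at k
      linear_combination k + l
  have bit : ∑ l : Fin L, (if l.1 ∈ S then (2 : K) ^ l.1 else 0) = n := by
    rw [Fin.sum_univ_eq_sum_range fun l => if l ∈ S then (2 : K) ^ l else 0, sum_ite_mem,
      inter_eq_right.2 h1, ← h2]
    simp
  constructor
  · intro h k
    refine one_ne_zero (h (fun j => j.elim 1 (Sum.elim (fun i => 2 ^ i.1) fun i => -2 ^ i.1))
      ?_ none)
    rintro (_ | i | i)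
    · simp [dbl, Fintype.sum_option, bit, k]
    · simp [dbl, Fintype.sum_option]
    · simp [dbl, Fintype.sum_option, geo]
      ring
  · intro k z hz
    have e1 := fun i => hz (some (.inl i))
    have e2 := fun i => hz (some (.inr i))
    have e3 := hz none
    simp only [dbl, Fintype.sum_option, Fintype.sum_sum_type, decide_eq_true_eq, sum_ite_eq',
      mem_univ, if_true, Bool.false_eq_true, if_false, zero_add, sum_const_zero, add_zero]
      at e1 e2 e3
    have e4 : ∀ (m : ℕ) (i : Fin L), i.1 = m → z (some (.inl i)) = 2 ^ i.1 * z none := fun m => by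
      induction m using Nat.strong_induction_on with
      | _ m ih =>
        rintro i rfl
        have l := e2 i
        rw [sum_congr rfl fun l _ => show _ = (if l < i then (2 : K) ^ l.1 else 0) * z none by
          split_ifs with l1
          exacts [ih _ l1 l rfl, (zero_mul _).symm], ← sum_mul, geo] at l
        linear_combination e1 i - l
    rw [sum_congr rfl fun l _ => show _ = (if l.1 ∈ S then (2 : K) ^ l.1 else 0) * z none by
      split_ifs
      exacts [e4 _ l rfl, (zero_mul _).symm], ← sum_mul, bit] at e3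
    have e5 := (mul_eq_zero.1 e3).resolve_left k
    have e6 : ∀ i, z (some (.inl i)) = 0 := fun i => by rw [e4 _ i rfl, e5, mul_zero]
    rintro (_ | i | i)
    exacts [e5, e6 i, by simpa [e6] using e1 i]

variable [Field F]

/-- The rows `c (g k)`, `k ∈ Z`, are independent on the coordinates `T`. -/
def MI {κ : Type} (c : α → α → F) (g : κ → α) (Z : Finset κ) (T : Finset α) : Prop :=
  ∀ z : κ → F, (∀ t ∈ T, ∑ k ∈ Z, z k * c (g k) t = 0) → ∀ k ∈ Z, z k = 0

theorem mi_iff {V κ : Type} [AddCommGroup V] [Module F V] {U : Submodule F V} {v : α → V}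
    {I T : Finset α} (hI : Ind U v I) (hT : T ⊆ I) {c : α → α → F} {g : κ → α} {Z : Finset κ}
    (hc : ∀ k ∈ Z, v (g k) - ∑ i ∈ I, c (g k) i • v i ∈ U) :
    Ind (sp U v (I \ T)) (v ∘ g) Z ↔ MI c g Z T := by
  have h1 : Ind (sp U v (I \ T)) v T := (ind_sp (hI.mono sdiff_subset)).2
    ⟨disjoint_sdiff, by rwa [union_sdiff_of_subset hT]⟩
  refine forall_congr' fun z => imp_congr_left ?_
  have h2 : ∑ k ∈ Z, z k • (v ∘ g) k - ∑ t ∈ T, (∑ k ∈ Z, z k * c (g k) t) • v t ∈
      sp U v (I \ T) := by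
    have k := add_mem (le_sp (v := v) (B := I \ T) (sum_mem fun k hk => U.smul_mem (z k) (hc k hk)))
      (sum_mem_sp fun t => ∑ k ∈ Z, z k * c (g k) t)
    simp only [smul_sub, sum_sub_distrib, smul_sum, smul_smul] at k
    rw [sum_comm (s := Z) (t := I), ← sum_sdiff hT] at k
    simp only [← sum_smul] at k
    convert k using 1
    simp only [Function.comp]
    abel
  exact ⟨fun k => h1 _ (by simpa using sub_mem k h2), fun k => by
    rwa [sum_eq_zero (s := T) fun t ht => by rw [k t ht, zero_smul], sub_zero] at h2⟩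

omit [DecidableEq α] in
theorem mi_div {κ : Type} {c : α → α → F} {g : κ → α} {Z : Finset κ} {T : Finset α} {b : α}
    (h : ∀ k ∈ Z, c (g k) b ≠ 0) : MI (fun e i => c e i / c e b) g Z T ↔ MI c g Z T := by
  refine ⟨fun H z hz k hk => (mul_eq_zero.1 (H (fun k => z k * c (g k) b) (fun t ht => ?_) k
    hk)).resolve_right (h k hk), fun H z hz k hk => (div_eq_zero_iff.1 (H
      (fun k => z k / c (g k) b) (fun t ht => ?_) k hk)).resolve_right (h k hk)⟩
  · rw [← hz t ht]
    exact sum_congr rfl fun k hk => by rw [mul_assoc, mul_div_cancel₀ _ (h k hk)]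
  · rw [← hz t ht]
    exact sum_congr rfl fun k _ => by ring

omit [DecidableEq α] in
theorem mi_pair {c : α → α → F} {e f b : α} {T : Finset α} (he : c e b = 1) (hf : c f b = 1)
    (hb : b ∈ T) : MI c (fun k : Bool => cond k e f) univ T ↔ ¬ ∀ t ∈ T, c e t = c f t := by
  refine ⟨fun H k => one_ne_zero (H (fun k => cond k 1 (-1)) (fun t ht => by simp [k t ht]) true
    (mem_univ _)), fun H z hz => ?_⟩
  have h1 : z true + z false = 0 := by simpa [he, hf] using hz b hb
  have h2 : z true = 0 := by_contra fun k => H fun t ht => mul_left_cancel₀ k (by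
    have h3 : z true * c e t + z false * c f t = 0 := by simpa using hz t ht
    linear_combination h3 - c f t * h1)
  rintro (_ | _) -
  exacts [by simpa [h2] using h1, h2]

theorem mi_cube {ι : Type} [Fintype ι] {c : α → α → F} {b : α} {θ : ι → α} {A : ι → ι → Bool}
    {g : Option ι → α} {x y : α → F} (h1 : ∀ k, c (g k) b = 1) (h2 : ∀ t, x (θ t) ≠ y (θ t))
    (h3 : ∀ t, c (g none) (θ t) = x (θ t))
    (h4 : ∀ t j, c (g (some j)) (θ t) = if A t j then y (θ t) else x (θ t)) :
    MI c g univ (insert b (univ.image θ)) ↔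
      ∀ z : ι → F, (∀ t, ∑ j, (if A t j then z j else 0) = 0) → ∀ j, z j = 0 := by
  have key : ∀ (z : Option ι → F) t, ∑ k, z k * c (g k) (θ t) = x (θ t) * ∑ k, z k +
      (y (θ t) - x (θ t)) * ∑ j, if A t j then z (some j) else 0 := fun z t => by
    simp only [Fintype.sum_option, h3, h4, mul_add, mul_sum, add_assoc, ← sum_add_distrib]
    refine congrArg₂ _ (mul_comm _ _) (sum_congr rfl fun j _ => ?_)
    split_ifs <;> ring
  constructor
  · intro H z hz j
    refine H (fun k => k.elim (-∑ j, z j) z) ((forall_mem_insert _ _ _).2 ⟨by simp [h1],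
      forall_mem_image.2 fun t _ => ?_⟩) (some j) (mem_univ _)
    rw [key]
    simp [hz]
  · intro H z hz
    have k1 : ∑ k, z k = 0 := by simpa [h1] using hz b (mem_insert_self _ _)
    have k2 := H (fun j => z (some j)) fun t => by
      have k := hz _ (mem_insert_of_mem (mem_image_of_mem θ (mem_univ t)))
      rw [key, k1, mul_zero, zero_add] at k
      exact (mul_eq_zero.1 k).resolve_left (sub_ne_zero.2 (h2 t).symm)
    rintro (_ | j) -
    exacts [by simpa [k2] using k1, k2 j]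

variable {p : ℕ} [hp : Fact p.Prime] {K X W : Type} [Field K] [AddCommGroup X] [Module (ZMod p) X]
  [AddCommGroup W] [Module K W] {P : Submodule (ZMod p) X} {P' : Submodule K W} {a : α → X}
  {w : α → W} {E I C : Finset α}

theorem small (hK : (p : K) ≠ 0) (h : Same P P' a w E) (hE : I ⊆ E) (hI : Ind P a I) {b : α}
    (hb : b ∈ I) (hC : C ⊆ E) (hs : ∀ e ∈ C, ∀ f ∈ C, Ind P a {e, f})
    (hc : ∀ e ∈ C, ∃ c : α → ZMod p, a e - ∑ i ∈ I, c i • a i ∈ P ∧ c b ≠ 0) {L : ℕ}
    (hL : p < 2 ^ L) : #C ≤ (1 + #I * p ^ 2) ^ (2 * L) := by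
  have : Nonempty α := ⟨b⟩
  choose! c c1 c2 using hc
  have hI' := (h I hE).1 hI
  choose! d d1 using fun e (he : e ∈ C) => mem_sp.1 (show w e ∈ sp P' w I from not_not.1 fun k =>
    (ind_insert hI).2 (((ind_insert hI').1 k).imp_right (h _ (insert_subset (hC he) hE)).2)
      (mem_sp.2 ⟨_, c1 e he⟩))
  have H0 : ∀ {κ : Type} (g : κ → α) (Z : Finset κ) (T : Finset α), T ⊆ I → (∀ k ∈ Z, g k ∈ C) →
      (MI c g Z T ↔ MI d g Z T) := fun g Z T k1 k2 => by
    rw [← mi_iff hI k1 fun k hk => c1 _ (k2 k hk), ← mi_iff hI' k1 fun k hk => d1 _ (k2 k hk)]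
    exact (h.con (sdiff_subset.trans hE) (hI.mono sdiff_subset)).comp g Z fun k hk => hC (k2 k hk)
  have d2 : ∀ e ∈ C, d e b ≠ 0 := fun e he k => one_ne_zero ((H0 id {e} {b}
    (singleton_subset_iff.2 hb) (by simpa using he)).1 (fun z hz => by simpa [c2 e he] using hz)
      (fun _ => (1 : K)) (by simpa using k) e (mem_singleton_self e))
  obtain ⟨m, hm⟩ : ∃ m, m = fun e i => c e i / c e b := ⟨_, rfl⟩
  obtain ⟨n, hn⟩ : ∃ n, n = fun e i => d e i / d e b := ⟨_, rfl⟩
  have m1 : ∀ e ∈ C, m e b = 1 := fun e he => hm ▸ div_self (c2 e he)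
  have n1 : ∀ e ∈ C, n e b = 1 := fun e he => hn ▸ div_self (d2 e he)
  have H : ∀ {κ : Type} (g : κ → α) (Z : Finset κ) (T : Finset α), T ⊆ I → (∀ k ∈ Z, g k ∈ C) →
      (MI m g Z T ↔ MI n g Z T) := fun g Z T k1 k2 => by
    rw [hm, hn, mi_div fun k hk => c2 _ (k2 k hk), mi_div fun k hk => d2 _ (k2 k hk)]
    exact H0 g Z T k1 k2
  have cd : ∀ {e f}, e ∈ C → f ∈ C → ∀ k ∈ (univ : Finset Bool), cond k e f ∈ C :=
    fun k1 k2 k _ => by cases k <;> assumption
  have H1 : ∀ e ∈ C, ∀ f ∈ C, ∀ t ∈ I, m e t = m f t ↔ n e t = n f t := fun e he f hf t ht => by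
    have k := H _ _ {b, t} (insert_subset hb (singleton_subset_iff.2 ht)) (cd he hf)
    rw [mi_pair (m1 e he) (m1 f hf) (by simp), mi_pair (n1 e he) (n1 f hf) (by simp)] at k
    simpa [m1 e he, m1 f hf, n1 e he, n1 f hf] using not_iff_not.1 k
  refine (natarajan m I (2 * L) C (fun e he f hf k => by_contra fun l => ?_)
    fun T k1 ⟨x, y, k2, k3⟩ => by_contra fun l => ?_).trans_eq (by rw [ZMod.card])
  · refine (mi_pair (m1 e he) (m1 f hf) hb).1 ?_ k
    rw [hm, mi_div fun k hk => c2 _ (cd he hf k hk),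
      ← mi_iff hI Subset.rfl fun k hk => c1 _ (cd he hf k hk), ind_comp]
    refine ⟨by rintro (_ | _) - (_ | _) - k <;> simp_all, ?_⟩
    simpa [sp, pair_comm] using hs e he f hf
  obtain ⟨S, s1, s2⟩ := bits L p hL
  obtain ⟨θ, t1, t2⟩ : ∃ θ : Option (Fin L ⊕ Fin L) → α, θ.Injective ∧ ∀ t, θ t ∈ T := by
    obtain ⟨θ⟩ := Function.Embedding.nonempty_of_card_le (α := Option (Fin L ⊕ Fin L)) (β := T)
      (by simp; omega)
    exact ⟨fun t => θ t, Subtype.val_injective.comp θ.injective, fun t => (θ t).2⟩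
  choose! ε e1 e2 using k3
  obtain ⟨Q, hQ⟩ : ∃ Q : Option (Option (Fin L ⊕ Fin L)) → Finset α,
    Q = fun k => k.elim ∅ fun j => (univ.filter fun t => dbl S t j).image θ := ⟨_, rfl⟩
  have q1 : ∀ k, Q k ⊆ T := by
    rintro (_ | j) <;> simp [hQ, image_subset_iff, t2]
  have q2 : ∀ t j, θ t ∈ Q (some j) ↔ dbl S t j := fun t j => by simp [hQ, t1.eq_iff]
  have q3 : Q none = ∅ := by simp [hQ]
  have q4 : ∀ k t, n (ε (Q k)) (θ t) = if θ t ∈ Q k then n (ε T) (θ t) else n (ε ∅) (θ t) :=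
    fun k t => by
      split_ifs with l1
      · exact (H1 _ (e1 _ (q1 k)) _ (e1 T Subset.rfl) _ (k1 (t2 t))).1 (by
          rw [e2 _ (q1 k) _ (t2 t), e2 T Subset.rfl _ (t2 t), if_pos l1, if_pos (t2 t)])
      · exact (H1 _ (e1 _ (q1 k)) _ (e1 ∅ (empty_subset _)) _ (k1 (t2 t))).1 (by
          rw [e2 _ (q1 k) _ (t2 t), e2 ∅ (empty_subset _) _ (t2 t), if_neg l1]; simp)
  have k := H (fun k => ε (Q k)) univ (insert b (univ.image θ))
    (insert_subset hb (image_subset_iff.2 fun t _ => k1 (t2 t))) fun k _ => e1 _ (q1 k)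
  rw [mi_cube (A := dbl S) (x := x) (y := y) (fun k => m1 _ (e1 _ (q1 k))) (fun t => k2 _ (t2 t))
      (fun t => by simpa [q3] using e2 ∅ (empty_subset _) _ (t2 t))
      (fun t j => by simpa [q2] using e2 _ (q1 (some j)) _ (t2 t)),
    mi_cube (A := dbl S) (x := n (ε ∅)) (y := n (ε T)) (fun k => n1 _ (e1 _ (q1 k)))
      (fun t l1 => k2 _ (t2 t) (by
        simpa [e2 T Subset.rfl _ (t2 t), e2 ∅ (empty_subset _) _ (t2 t), t2] using
          (H1 _ (e1 ∅ (empty_subset _)) _ (e1 T Subset.rfl) _ (k1 (t2 t))).2 l1))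
      (fun t => by rw [q3]) (fun t j => by simpa [q2] using q4 (some j) t),
    dbl_iff s1 s2, dbl_iff s1 s2] at k
  exact k.2 hK (ZMod.natCast_self p)

end Pool.Agent.Lib.MP_f51a11_co.Qp
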