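import Pool.Agent.Lib.MP_f51a11_co.Qp.Coc

/-! The long lines through a point contain no long circuit. -/

namespace Pool.Agent.Lib.MP_f51a11_co.Qp

open Finset Pointwise

variable {α : Type} [DecidableEq α]

theorem cover {p : ℕ} [hp : Fact p.Prime] (δ : α → ZMod p) (A : Finset α) (h : ∀ u ∈ A, δ u ≠ 0) :
    min p (#A + 1) ≤ #(A.powerset.image fun S => ∑ u ∈ S, δ u) := by
  induction A using Finset.induction_on with
  | empty => simp
  | insert a A ha ih =>
    have h1 := ih fun u hu => h u (mem_insert_of_mem hu)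
    have h2 := ZMod.cauchy_davenport hp.out (s := A.powerset.image fun S => ∑ u ∈ S, δ u)
      (t := {0, δ a}) ⟨_, mem_image_of_mem _ (empty_mem_powerset A)⟩ (by simp)
    have h3 : (A.powerset.image fun S => ∑ u ∈ S, δ u) + {0, δ a} ⊆
        (insert a A).powerset.image fun S => ∑ u ∈ S, δ u := by
      intro z hz
      obtain ⟨x, hx, y, hy, rfl⟩ := mem_add.1 hz
      obtain ⟨S, hS, rfl⟩ := mem_image.1 hx
      have k := mem_powerset.1 hS
      rcases mem_insert.1 hy with rfl | hy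
      · exact mem_image.2 ⟨S, mem_powerset.2 (k.trans (subset_insert _ _)), by simp⟩
      · exact mem_image.2 ⟨insert a S, mem_powerset.2 (insert_subset_insert _ k), by
          rw [sum_insert fun l => ha (k l), mem_singleton.1 hy, add_comm]⟩
    have h4 := card_le_card h3
    rw [card_pair (h a (mem_insert_self _ _)).symm] at h2
    rw [card_insert_of_notMem ha]
    omega

theorem cover' {p : ℕ} [hp : Fact p.Prime] (δ : α → ZMod p) (A : Finset α) (h : ∀ u ∈ A, δ u ≠ 0)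
    (hA : #A = p - 1) (t : ZMod p) : ∃ S ⊆ A, ∑ u ∈ S, δ u = t := by
  have h1 := cover δ A h
  have h2 := hp.out.two_le
  have h3 : (A.powerset.image fun S => ∑ u ∈ S, δ u) = univ :=
    (card_eq_iff_eq_univ _).1 (le_antisymm (card_le_univ _) (by rw [ZMod.card]; omega))
  simpa using (h3 ▸ mem_univ t : t ∈ A.powerset.image fun S => ∑ u ∈ S, δ u)

theorem no_sum {p : ℕ} [hp : Fact p.Prime] {K : Type} [Field K] (hK : (p : K) ≠ 0)
    {δ : α → ZMod p} {δ' : α → K} {Z : Finset α} (h : ∀ u ∈ Z, δ u ≠ 0) (h' : ∀ u ∈ Z, δ' u ≠ 0)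
    {τ : ZMod p} {τ' : K} (H : ∀ S ⊆ Z, τ + ∑ u ∈ S, δ u = 0 → τ' + ∑ u ∈ S, δ' u = 0) :
    #Z < 3 * (p - 1) := by
  by_contra hZ
  have h2 := hp.out.two_le
  obtain ⟨A, a1, a2⟩ := exists_subset_card_eq (s := Z) (n := p - 1) (by omega)
  have a3 := card_sdiff_add_card_eq_card a1
  obtain ⟨B, b1, b2⟩ := exists_subset_card_eq (s := Z \ A) (n := p - 1) (by omega)
  have b3 := card_sdiff_add_card_eq_card b1
  obtain ⟨C, c1, c2⟩ := exists_subset_card_eq (s := (Z \ A) \ B) (n := p - 1) (by omega)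
  have c3 := c1.trans sdiff_subset
  choose S s1 s2 using fun t => cover' δ A (fun u hu => h u (a1 hu)) a2 (-τ - t)
  obtain ⟨ψ, hψ⟩ : ∃ ψ : ZMod p → K, ∀ R ⊆ Z \ A, ∑ u ∈ R, δ' u = ψ (∑ u ∈ R, δ u) := by
    refine ⟨fun t => -τ' - ∑ u ∈ S t, δ' u, fun R hR => ?_⟩
    have hd : Disjoint (S (∑ u ∈ R, δ u)) R := ((subset_sdiff.1 hR).2.mono_right (s1 _)).symm
    have k := H _ (union_subset ((s1 _).trans a1) (hR.trans sdiff_subset))
      (by rw [sum_union hd, s2]; ring)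
    rw [sum_union hd] at k
    linear_combination k
  have add : ∀ s t, ψ (s + t) = ψ s + ψ t := fun s t => by
    obtain ⟨R, r1, rfl⟩ := cover' δ B (fun u hu => h u (sdiff_subset (b1 hu))) b2 s
    obtain ⟨Q, q1, rfl⟩ := cover' δ C (fun u hu => h u (sdiff_subset (c3 hu))) c2 t
    have hd : Disjoint R Q := ((subset_sdiff.1 c1).2.mono q1 r1).symm
    rw [← sum_union hd, ← hψ _ (union_subset (r1.trans b1) (q1.trans c3)), sum_union hd,
      hψ R (r1.trans b1), hψ Q (q1.trans c3)]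
  obtain ⟨u, hu⟩ := card_pos.1 (show 0 < #B by omega)
  have k1 := hψ {u} (singleton_subset_iff.2 (b1 hu))
  have k2 := (AddMonoidHom.mk' ψ add).map_nsmul p (δ u)
  rw [nsmul_eq_mul, nsmul_eq_mul, ZMod.natCast_self, zero_mul, map_zero] at k2
  simp only [sum_singleton] at k1
  exact mul_ne_zero hK (h' u (sdiff_subset (b1 hu))) (by rw [k1]; exact k2.symm)

variable {F V : Type} [Field F] [AddCommGroup V] [Module F V] {U : Submodule F V} {v : α → V}

theorem par_coef {x u y : α} (h1 : Ind U v {u, x})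
    (h2 : ¬ Ind U v (insert y {u, x})) (hux : u ≠ x) :
    ∃ β γ : F, v y - (β • v u + γ • v x) ∈ U := by
  obtain ⟨c, hc⟩ := mem_sp.1 (not_not.1 fun k => h2 ((ind_insert h1).1 k).2)
  exact ⟨c u, c x, by rwa [sum_pair hux] at hc⟩

theorem not_ind_pair {x y : α} (hxy : y ≠ x) {γ : F} (h : v y - γ • v x ∈ U) :
    ¬ Ind U v {y, x} := fun k => by
  simpa using k (fun i => if i = y then 1 else -γ)
    (by simpa [sum_pair hxy, hxy.symm, sub_eq_add_neg] using h) y (by simp)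

/-- The dependent transversals over a circuit of long lines solve a subset sum equation. -/
theorem transv {x : α} {Z : Finset α} {m : α → α} (hx : v x ∉ U) (h0 : ¬ Ind (sp U v {x}) v Z)
    (h1 : ∀ u ∈ Z, Ind (sp U v {x}) v (Z.erase u)) (hm : ∀ u ∈ Z, u ≠ x ∧ m u ≠ u ∧ m u ≠ x ∧
      Ind U v {u, x} ∧ Ind U v {m u, x} ∧ Ind U v {m u, u} ∧ ¬ Ind U v (insert (m u) {u, x})) :
    ∃ (δ : α → F) (τ : F), (∀ u ∈ Z, δ u ≠ 0) ∧ ∀ S ⊆ Z,
      (Ind U (v ∘ fun u => if u ∈ S then m u else u) Z ↔ τ + ∑ u ∈ S, δ u ≠ 0) := by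
  obtain ⟨μ, m1, u₀, m2, m3⟩ : ∃ μ : α → F, ∑ i ∈ Z, μ i • v i ∈ sp U v {x} ∧ ∃ u ∈ Z, μ u ≠ 0 := by
    simpa [Ind] using h0
  have uniq : ∀ c : α → F, ∑ i ∈ Z, c i • v i ∈ sp U v {x} → ∀ u ∈ Z, c u = 0 → ∀ i ∈ Z, c i = 0 :=
    fun c hc u hu k i hi => by
      rcases eq_or_ne i u with rfl | l
      · exact k
      · exact h1 u hu c (by rwa [sum_erase _ (by rw [k, zero_smul])]) i (mem_erase.2 ⟨l, hi⟩)
  have m4 : ∀ u ∈ Z, μ u ≠ 0 := fun u hu k => m3 (uniq μ m1 u hu k u₀ m2)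
  obtain ⟨τ, hτ⟩ := mem_sp.1 m1
  rw [sum_singleton] at hτ
  choose! β γ hβ using fun u (hu : u ∈ Z) =>
    par_coef (hm u hu).2.2.2.1 (hm u hu).2.2.2.2.2.2 (hm u hu).1
  have b1 : ∀ u ∈ Z, β u ≠ 0 := fun u hu k => not_ind_pair (hm u hu).2.2.1 (γ := γ u)
    (by simpa [k] using hβ u hu) (hm u hu).2.2.2.2.1
  have b2 : ∀ u ∈ Z, γ u ≠ 0 := fun u hu k => not_ind_pair (hm u hu).2.1 (γ := β u)
    (by simpa [k] using hβ u hu) (hm u hu).2.2.2.2.2.1
  refine ⟨fun u => μ u * γ u / β u, τ x, fun u hu =>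
    div_ne_zero (mul_ne_zero (m4 u hu) (b2 u hu)) (b1 u hu), fun S hS => ?_⟩
  have key : ∀ c : α → F, ∑ u ∈ Z, c u • (v ∘ fun u => if u ∈ S then m u else u) u -
      (∑ u ∈ Z, (c u * if u ∈ S then β u else 1) • v u + (∑ u ∈ S, c u * γ u) • v x) ∈ U :=
    fun c => by
      rw [show ∑ u ∈ S, c u * γ u = ∑ u ∈ Z, if u ∈ S then c u * γ u else 0 by
        rw [sum_ite_mem, inter_eq_right.2 hS], sum_smul, ← sum_add_distrib, ← sum_sub_distrib]
      refine sum_mem fun u hu => ?_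
      by_cases k : u ∈ S
      · simpa [k, smul_sub, smul_smul] using U.smul_mem (c u) (hβ u hu)
      · simp [k]
  have b3 : ∀ u ∈ Z, (if u ∈ S then β u else 1) ≠ 0 := fun u hu => by
    split_ifs
    exacts [b1 u hu, one_ne_zero]
  have lin : ∀ (c : α → F) (t : F), (∀ u ∈ Z, (c u * if u ∈ S then β u else 1) = t * μ u) →
      (∑ u ∈ Z, c u • (v ∘ fun u => if u ∈ S then m u else u) u ∈ U ↔
        t * (τ x + ∑ u ∈ S, μ u * γ u / β u) = 0) := fun c t ht => by
    have k1 : ∑ u ∈ S, c u * γ u = t * ∑ u ∈ S, μ u * γ u / β u := by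
      rw [mul_sum]
      refine sum_congr rfl fun u hu => ?_
      have l := ht u (hS hu)
      rw [if_pos hu] at l
      rw [← mul_div_assoc, ← mul_assoc, ← l, eq_div_iff (b1 u (hS hu))]
      ring
    have k2 := add_mem (key c) (U.smul_mem t hτ)
    rw [sum_congr (s₁ := Z) (f := fun u => (c u * if u ∈ S then β u else 1) • v u) rfl
      fun u hu => by rw [ht u hu, mul_smul], ← smul_sum, k1] at k2
    have k3 : ∑ u ∈ Z, c u • (v ∘ fun u => if u ∈ S then m u else u) u -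
        (t * (τ x + ∑ u ∈ S, μ u * γ u / β u)) • v x ∈ U := by
      convert k2 using 1
      module
    refine ⟨fun k => by_contra fun l => hx ((U.smul_mem_iff l).1 ?_), fun k => by simpa [k] using k3⟩
    simpa using sub_mem k k3
  constructor
  · intro k l
    refine div_ne_zero m3 (b3 u₀ m2) (k (fun u => μ u / if u ∈ S then β u else 1)
      ((lin _ 1 fun u hu => ?_).2 (by rw [l, mul_zero])) u₀ m2)
    rw [div_mul_cancel₀ _ (b3 u hu), one_mul]
  · intro k c hc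
    have k1 : ∑ u ∈ Z, (c u * if u ∈ S then β u else 1) • v u ∈ sp U v {x} := by
      have l := sub_mem (le_sp (v := v) (B := {x}) (sub_mem hc (key c)))
        (Submodule.smul_mem _ (∑ u ∈ S, c u * γ u) (self_mem_sp (mem_singleton_self x)))
      simpa using l
    obtain ⟨t, ht⟩ : ∃ t, t = (c u₀ * if u₀ ∈ S then β u₀ else 1) / μ u₀ := ⟨_, rfl⟩
    have k2 := uniq (fun u => (c u * if u ∈ S then β u else 1) - t * μ u) (by
      simp only [sub_smul, sum_sub_distrib, mul_smul t, ← smul_sum]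
      exact sub_mem k1 (Submodule.smul_mem _ t m1)) u₀ m2 (by
        simp only [ht, div_mul_cancel₀ _ m3, sub_self])
    have k3 := ((mul_eq_zero.1 ((lin c t fun u hu => sub_eq_zero.1 (k2 u hu)).1 hc)).resolve_right k)
    intro u hu
    have k4 := k2 u hu
    simp only [k3, zero_mul, sub_zero] at k4
    exact (mul_eq_zero.1 k4).resolve_right (b3 u hu)

variable {p : ℕ} [hp : Fact p.Prime] {K X W : Type} [Field K] [AddCommGroup X] [Module (ZMod p) X]
  [AddCommGroup W] [Module K W] {P : Submodule (ZMod p) X} {P' : Submodule K W} {a : α → X}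
  {w : α → W} {E N : Finset α}

theorem long_sc (hK : (p : K) ≠ 0) (h : Same P P' a w E) (hs : ∀ e ∈ E, ∀ f ∈ E, Ind P a {e, f})
    {x : α} (hx : x ∈ E) (hN : N ⊆ E.erase x)
    (hl : ∀ u ∈ N, ∃ y ∈ E, y ≠ u ∧ y ≠ x ∧ ¬ Ind P a (insert y {u, x})) :
    SC (3 * (p - 1) - 2) (sp P a {x}) a N := by
  classical
  intro I k1 k2 e he c hc
  obtain ⟨I', hI'⟩ : ∃ I', I' = {i ∈ I | c i ≠ 0} := ⟨_, rfl⟩
  have l1 : I' ⊆ I := hI' ▸ filter_subset _ _
  have l2 : ∀ i ∈ I', c i ≠ 0 := fun i hi => (mem_filter.1 (hI' ▸ hi :)).2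
  rw [← sum_subset l1 fun i h1 h2 => by
    rw [not_not.1 fun k => h2 (hI' ▸ mem_filter.2 ⟨h1, k⟩), zero_smul]] at hc
  have l3 := k2.mono l1
  have h2 := hp.out.two_le
  refine (congrArg card (show _ = I' by rw [hI']; congr)).trans_le ?_
  by_cases l4 : e ∈ I'
  · have l5 := l3 (fun i => (if i ∈ ({e} : Finset α) then 1 else 0) - c i) (by
      simp only [sub_smul, sum_sub_distrib, sum_ite_sub (singleton_subset_iff.2 l4)]
      simpa using hc)
    have l6 : I' ⊆ {e} := fun i hi => by_contra fun k => l2 i hi (by simpa [k] using l5 i hi)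
    have := card_le_card l6
    rw [card_singleton] at this
    omega
  choose! m hm using hl
  have z1 : insert e I' ⊆ N := insert_subset he (l1.trans k1)
  have z2 : ∀ u ∈ insert e I', u ≠ x ∧ u ∈ E := fun u hu => mem_erase.1 (hN (z1 hu))
  have z3 : insert e I' ⊆ E := fun u hu => (z2 u hu).2
  have x1 := hs x hx x hx
  rw [pair_eq_singleton] at x1
  have x2 := singleton_subset_iff.2 hx
  have hc' := h.con x2 x1
  have z4 : ¬ Ind (sp P a {x}) a (insert e I') := fun k =>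
    (ind_insert l3).2 ⟨l4, k⟩ (mem_sp.2 ⟨c, hc⟩)
  have z5 : ∀ u ∈ insert e I', Ind (sp P a {x}) a ((insert e I').erase u) := fun u hu => by
    rcases mem_insert.1 hu with rfl | k
    · rwa [erase_insert l4]
    · rw [erase_insert_of_ne fun l : e = u => l4 (l ▸ k)]
      exact (exch l3 k hc (l2 u k)).2.1
  have pr : ∀ {e f}, e ∈ E → f ∈ E → {e, f} ⊆ E := fun h1 h2 =>
    insert_subset h1 (singleton_subset_iff.2 h2)
  obtain ⟨δ, τ, d1, d2⟩ := transv (m := m) (ind_single.1 x1) z4 z5 fun u hu =>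
    ⟨(z2 u hu).1, (hm u (z1 hu)).2.1, (hm u (z1 hu)).2.2.1, hs _ (z3 hu) _ hx,
      hs _ (hm u (z1 hu)).1 _ hx, hs _ (hm u (z1 hu)).1 _ (z3 hu), (hm u (z1 hu)).2.2.2⟩
  obtain ⟨δ', τ', d3, d4⟩ := transv (m := m) (ind_single.1 ((h _ x2).1 x1))
    (mt (hc' _ z3).2 z4) (fun u hu => (hc' _ ((erase_subset _ _).trans z3)).1 (z5 u hu))
    fun u hu => ⟨(z2 u hu).1, (hm u (z1 hu)).2.1, (hm u (z1 hu)).2.2.1,
      (h _ (pr (z3 hu) hx)).1 (hs _ (z3 hu) _ hx),
      (h _ (pr (hm u (z1 hu)).1 hx)).1 (hs _ (hm u (z1 hu)).1 _ hx),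
      (h _ (pr (hm u (z1 hu)).1 (z3 hu))).1 (hs _ (hm u (z1 hu)).1 _ (z3 hu)),
      mt (h _ (insert_subset (hm u (z1 hu)).1 (pr (z3 hu) hx))).2 (hm u (z1 hu)).2.2.2⟩
  have k := no_sum hK d1 d3 (τ := τ) (τ' := τ') fun S hS l => by_contra fun l' =>
    (d2 S hS).1 ((h.comp _ _ fun u hu => by
      split_ifs
      exacts [(hm u (z1 hu)).1, z3 hu]).2 ((d4 S hS).2 l')) l
  rw [card_insert_of_notMem l4] at k
  omega

end Pool.Agent.Lib.MP_f51a11_co.Qp
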