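import Pool.Agent.Lib.MP_f51a11_co.Qp.Lin
import Pool.Agent.Lib.MP_f51a11_co.Qp.Cub

/-! The number of points of a family represented in two characteristics. -/

namespace Pool.Agent.Lib.MP_f51a11_co.Qp

open Finset

variable {α : Type} [DecidableEq α] {p : ℕ} [hp : Fact p.Prime] {K X W : Type} [Field K]
  [AddCommGroup X] [Module (ZMod p) X] [AddCommGroup W] [Module K W] {a : α → X} {w : α → W}

theorem few (hK : (p : K) ≠ 0) {P : Submodule (ZMod p) X} {P' : Submodule K W} {s R L : ℕ}
    (hR : s * (s + 1) ≤ 2 * R) (hL : p < 2 ^ L) (m : ℕ) : ∀ N : Finset α, Same P P' a w N →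
      SC s P a N → (∀ e ∈ N, ∀ f ∈ N, Ind P a {e, f}) → (∀ I ⊆ N, Ind P a I → #I ≤ m) →
        #N ≤ m * (1 + R * p ^ 2) ^ (2 * L) := by
  classical
  induction m with
  | zero =>
    intro N _ _ h3 h4
    rw [eq_empty_of_forall_notMem (s := N) fun e he => by
      simpa using h4 {e} (singleton_subset_iff.2 he) (by simpa using h3 e he e he)]
    simp
  | succ m ih =>
    intro N h1 h2 h3 h4
    rcases N.eq_empty_or_nonempty with rfl | ⟨e, he⟩
    · simp
    obtain ⟨I, φ, b, a1, a2, a3, a4, a5, a6, a7, a8⟩ :=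
      cocirc s P h2 ⟨e, he, (h3 e he e he).notMem (mem_insert_self _ _)⟩
    have k1 := small (C := {e ∈ N | ¬ φ (a e) = 0}) hK h1 a1 a2 a3 (filter_subset _ _)
      (fun e he f hf => h3 e (mem_filter.1 he).1 f (mem_filter.1 hf).1) (fun e he => by
        obtain ⟨c, hc⟩ := mem_sp.1 (a8 e (mem_filter.1 he).1 (mem_filter.1 he).2)
        exact ⟨c, hc, coef_ne a5 a6 hc (mem_filter.1 he).2⟩) hL
    have k0 : {e ∈ N | φ (a e) = 0} ⊆ N := filter_subset _ _
    have k2 := ih {e ∈ N | φ (a e) = 0} (h1.mono k0)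
      (fun J l1 l2 e he => h2 J (l1.trans k0) l2 e (k0 he))
      (fun e he f hf => h3 e (k0 he) f (k0 hf)) fun J l1 l2 => by
        obtain ⟨l3, l4⟩ := (ind_insert (e := b) l2).1 fun k => by
          obtain ⟨c, hc⟩ := mem_sp.1 k
          have l5 := a5 _ hc
          rw [map_sub, map_sum, sum_eq_zero fun i hi => by
            rw [map_smul, (mem_filter.1 (l1 hi)).2, smul_zero], sub_zero] at l5
          exact a4 l5
        have l5 := h4 _ (insert_subset (a1 a3) (l1.trans k0)) l4
        rw [card_insert_of_notMem l3] at l5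
        omega
    have k3 := card_filter_add_card_filter_not (s := N) fun e => φ (a e) = 0
    have k4 : (1 + #I * p ^ 2) ^ (2 * L) ≤ (1 + R * p ^ 2) ^ (2 * L) := by
      gcongr
      omega
    rw [add_mul, one_mul]
    omega

theorem main (hK : (p : K) ≠ 0) (n : ℕ) : ∀ (P : Submodule (ZMod p) X) (P' : Submodule K W)
    (E : Finset α), Same P P' a w E → (∀ e ∈ E, ∀ f ∈ E, Ind P a {e, f}) →
      (∀ I ⊆ E, Ind P a I → #I ≤ n) →
        #E ≤ p * (5 * p ^ 4) ^ (2 * Nat.log 2 p + 2) * n.choose 2 + n := by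
  classical
  induction n with
  | zero =>
    intro P _ E _ h3 h4
    rw [eq_empty_of_forall_notMem (s := E) fun e he => by
      simpa using h4 {e} (singleton_subset_iff.2 he) (by simpa using h3 e he e he)]
    simp
  | succ n ih =>
    intro P P' E h1 h2 h3
    rcases E.eq_empty_or_nonempty with rfl | ⟨x, hx⟩
    · simp
    have x1 : Ind P a {x} := by simpa using h2 x hx x hx
    have h1' := h1.con (singleton_subset_iff.2 hx) x1
    have rk : ∀ I ⊆ E.erase x, Ind (sp P a {x}) a I → #I ≤ n := fun I l1 l2 => by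
      obtain ⟨l3, l4⟩ := (ind_sp x1).1 l2
      have l5 := h3 _ (union_subset (l1.trans (erase_subset _ _)) (singleton_subset_iff.2 hx)) l4
      rw [card_union_of_disjoint l3, card_singleton] at l5
      omega
    obtain ⟨G, ⟨g1, g2⟩, hmax⟩ := Set.exists_max_image {G : Finset α | G ⊆ E.erase x ∧
      ∀ e ∈ G, ∀ f ∈ G, Ind (sp P a {x}) a {e, f}} card
      ((E.erase x).powerset.finite_toSet.subset fun _ k => mem_powerset.2 k.1) ⟨∅, by simp⟩
    have : Nonempty α := ⟨x⟩
    choose! r r1 r2 using fun e (he : e ∈ E.erase x \ G) =>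
      show ∃ u ∈ G, ¬ Ind (sp P a {x}) a {e, u} by
        by_contra k
        push Not at k
        obtain ⟨l1, l2⟩ := mem_sdiff.1 he
        have l3 : Ind (sp P a {x}) a {e, e} := by
          rw [pair_eq_singleton, ind_sp x1, disjoint_singleton]
          exact ⟨(mem_erase.1 l1).1, h2 e (mem_erase.1 l1).2 x hx⟩
        have l4 := hmax (insert e G) ⟨insert_subset l1 g1,
          (forall_mem_insert _ _ _).2 ⟨(forall_mem_insert _ _ _).2 ⟨l3, k⟩, fun u hu =>
            (forall_mem_insert _ _ _).2 ⟨pair_comm e u ▸ k u hu, g2 u hu⟩⟩⟩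
        rw [card_insert_of_notMem l2] at l4
        omega
    have r3 : ∀ e ∈ E.erase x \ G, ¬ Ind P a (insert e {r e, x}) := fun e he k =>
      r2 e he ((ind_sp x1).2 ⟨disjoint_singleton_right.2 (by
        simpa [not_or] using ⟨(mem_erase.1 (mem_sdiff.1 he).1).1.symm,
          (mem_erase.1 (g1 (r1 e he))).1.symm⟩), by simpa using k⟩)
    have n1 : (E.erase x \ G).image r ⊆ G := image_subset_iff.2 r1
    have h4 := hp.out.two_le
    have k1 := few (R := 5 * p ^ 2 - 1) (s := 3 * (p - 1) - 2) hK (by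
        obtain ⟨t, ht⟩ : ∃ t, p = t + 2 := ⟨p - 2, by omega⟩
        rw [show 3 * (p - 1) - 2 = 3 * t + 1 by omega,
          show 5 * p ^ 2 - 1 = 5 * t ^ 2 + 20 * t + 19 by rw [ht]; ring_nf; omega]
        nlinarith)
      (Nat.lt_pow_succ_log_self one_lt_two p) n _
      (h1'.mono (n1.trans (g1.trans (erase_subset _ _))))
      (long_sc hK h1 h2 hx (n1.trans g1) fun u hu => by
        obtain ⟨e, he, rfl⟩ := mem_image.1 hu
        exact ⟨e, (mem_erase.1 (mem_sdiff.1 he).1).2, fun k => (mem_sdiff.1 he).2 (k ▸ r1 e he),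
          (mem_erase.1 (mem_sdiff.1 he).1).1, r3 e he⟩)
      (fun e he f hf => g2 e (n1 he) f (n1 hf)) fun I l1 => rk I (l1.trans (n1.trans g1))
    have k2 := ih _ _ G (h1'.mono (g1.trans (erase_subset _ _))) g2 fun I l1 => rk I (l1.trans g1)
    have k3 := card_le_mul_card_image (f := r) (E.erase x \ G) p fun u hu => by
      obtain ⟨u1, u2⟩ := mem_erase.1 (g1 (n1 hu))
      choose! β γ hβ using fun e (he : e ∈ {e ∈ E.erase x \ G | r e = u}) =>
        par_coef (h2 u u2 x hx) ((mem_filter.1 he).2 ▸ r3 e (mem_filter.1 he).1) u1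
      have l1 : ∀ e ∈ {e ∈ E.erase x \ G | r e = u}, e ≠ x ∧ e ∈ E := fun e he =>
        mem_erase.1 (mem_sdiff.1 (mem_filter.1 he).1).1
      have l2 : ∀ e ∈ {e ∈ E.erase x \ G | r e = u}, β e ≠ 0 := fun e he k =>
        not_ind_pair (l1 e he).1 (γ := γ e) (by simpa [k] using hβ e he) (h2 e (l1 e he).2 x hx)
      refine (card_le_card_of_injOn (t := univ) (fun e => γ e / β e) (fun _ _ => mem_univ _)
        fun e he f hf k => by_contra fun l => ?_).trans_eq (by rw [card_univ, ZMod.card])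
      refine not_ind_pair l (γ := β e / β f) ?_ (h2 e (l1 e he).2 f (l1 f hf).2)
      have l3 : γ e = β e / β f * γ f := by
        have l4 := l2 e he
        have l5 := l2 f hf
        simp only [div_eq_div_iff l4 l5] at k
        field_simp
        linear_combination k
      convert sub_mem (hβ e he) (P.smul_mem (β e / β f) (hβ f hf)) using 1
      rw [smul_sub, smul_add, smul_smul, smul_smul, div_mul_cancel₀ _ (l2 f hf), ← l3]
      abel
    have k4 := card_sdiff_add_card_eq_card g1
    have k5 := card_erase_add_one hx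
    have k6 : (1 + (5 * p ^ 2 - 1) * p ^ 2) ^ (2 * (Nat.log 2 p).succ) ≤
        (5 * p ^ 4) ^ (2 * Nat.log 2 p + 2) := by
      refine Nat.pow_le_pow_left ?_ _
      have l1 : 1 ≤ p ^ 2 := Nat.one_le_pow _ _ (by omega)
      rw [Nat.sub_one_mul, show 5 * p ^ 2 * p ^ 2 = 5 * p ^ 4 by ring]
      have l2 : p ^ 2 ≤ p ^ 4 := Nat.pow_le_pow_right (by omega) (by omega)
      omega
    have k7 := Nat.mul_le_mul_left p (k1.trans (Nat.mul_le_mul_left n k6))
    rw [Nat.choose_succ_succ' n 1, Nat.choose_one_right, mul_add, mul_assoc, mul_comm _ n,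
      one_add_one_eq_two]
    omega

end Pool.Agent.Lib.MP_f51a11_co.Qp
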